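import Pool.Agent.KTriv.Defs

/-!
# KTriv/Prod : a product of rational polyhedral cones covers
-/

set_option autoImplicit false

open Module

namespace Pool.Agent.KTriv

open Pool.Agent.H93Cone Pool.Agent.H92Cone Pool.Agent.H55.Cone

namespace Variety

theorem IsProduct.cover {r : ℕ} {W : Variety} {Y : Fin r → Variety}
    {E : ∀ j, Matrix (Fin W.n) (Fin (Y j).n) ℤ} (h : W.IsProduct Y E)
    (hY : ∀ j, (Y j).ConeConjecture) :
    ∃ S : Finset (Fin W.n → ℚ), (∀ x ∈ rcone S, x ∈ W.Nef ∧ x ∈ W.Eff) ∧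
      ∀ x, x ∈ W.Nef → x ∈ W.Eff → ∃ g ∈ W.ρ.range, ∃ y ∈ rcone S, act g.val y = x := by
  classical
  have hnef : ∀ y : ∀ j, Fin (Y j).n → ℝ, ∑ j, pull (E j) (y j) ∈ W.Nef ↔
      ∀ j, y j ∈ (Y j).Nef := h.nef
  have heff : ∀ y : ∀ j, Fin (Y j).n → ℝ, ∑ j, pull (E j) (y j) ∈ W.Eff ↔
      ∀ j, y j ∈ (Y j).Eff := h.eff
  choose T hT1 hT2 _ using hY
  -- the rational cones of the factors, embedded
  have himg : ∀ j, ∃ S' : Finset (Fin W.n → ℚ), ∀ x, x ∈ rcone S' ↔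
      ∃ y ∈ rcone (T j), pull (E j) y = x := by
    intro j
    obtain ⟨S', hS'⟩ := rcone_image ((E j).map (Int.cast : ℤ → ℚ)) (T j)
    exact ⟨S', fun x => by rw [hS' x, pull_eq_rmap]⟩
  choose S' hS' using himg
  set S : Finset (Fin W.n → ℚ) := Finset.univ.biUnion S' with hS
  have hsub : ∀ j, rcone (S' j) ≤ rcone S := fun j =>
    rcone_mono (Finset.subset_biUnion_of_mem S' (Finset.mem_univ j))
  -- a single summand
  have hsingle : ∀ j (y : Fin (Y j).n → ℝ), y ∈ (Y j).Nef → y ∈ (Y j).Eff →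
      pull (E j) y ∈ W.Nef ∧ pull (E j) y ∈ W.Eff := by
    intro j y hy1 hy2
    have hsum : ∑ k, pull (E k) ((Pi.single j y : ∀ k, Fin (Y k).n → ℝ) k) = pull (E j) y := by
      rw [Finset.sum_eq_single j]
      · rw [Pi.single_eq_same]
      · intro k _ hk
        rw [Pi.single_eq_of_ne hk, map_zero]
      · intro hj
        exact absurd (Finset.mem_univ j) hj
    rw [← hsum]
    constructor
    · rw [hnef]
      intro k
      by_cases hk : k = j
      · subst hk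
        rw [Pi.single_eq_same]
        exact hy1
      · rw [Pi.single_eq_of_ne hk]
        exact Submodule.zero_mem _
    · rw [heff]
      intro k
      by_cases hk : k = j
      · subst hk
        rw [Pi.single_eq_same]
        exact hy2
      · rw [Pi.single_eq_of_ne hk]
        exact Submodule.zero_mem _
  refine ⟨S, fun x hx => ⟨?_, ?_⟩, fun x hx1 hx2 => ?_⟩
  · refine rcone_le (fun s hs => ?_) x hx
    obtain ⟨j, _, hj⟩ := Finset.mem_biUnion.1 hs
    obtain ⟨y, hy, hyx⟩ := (hS' j _).1 (mem_rcone hj)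
    rw [← hyx]
    exact (hsingle j y (hT1 j hy).1 (hT1 j hy).2).1
  · refine rcone_le (fun s hs => ?_) x hx
    obtain ⟨j, _, hj⟩ := Finset.mem_biUnion.1 hs
    obtain ⟨y, hy, hyx⟩ := (hS' j _).1 (mem_rcone hj)
    rw [← hyx]
    exact (hsingle j y (hT1 j hy).1 (hT1 j hy).2).2
  · obtain ⟨y, rfl⟩ := h.sum x
    have hy1 := (h.nef y).1 hx1
    have hy2 := (h.eff y).1 hx2
    have hz : ∀ j, ∃ g : (Y j).Aut, ∃ z ∈ rcone (T j), act ((Y j).ρ g).val z = y j := by
      intro j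
      have hm : y j ∈ (Y j).nef ∩ (Y j).eff := ⟨hy1 j, hy2 j⟩
      rw [hT2 j] at hm
      obtain ⟨γ, hγ, z, hz, hzy⟩ := Set.mem_iUnion₂.1 hm
      obtain ⟨g, rfl⟩ := hγ
      exact ⟨g, z, hz, hzy⟩
    choose g z hz hzy using hz
    obtain ⟨k, hk⟩ := h.aut g
    refine ⟨W.ρ k, ⟨k, rfl⟩, ∑ j, pull (E j) (z j), ?_, ?_⟩
    · exact Submodule.sum_mem _ fun j _ => hsub j ((hS' j _).2 ⟨z j, hz j, rfl⟩)
    · refine (hk z).trans ?_
      exact Finset.sum_congr rfl fun j _ => congrArg (pull (E j)) (hzy j)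

end Variety

end Pool.Agent.KTriv
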