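import Pool.Agent.KTriv.Defs

/-!
# KTriv/Quotient : the centralizer has finite index, descent to the quotient
-/

set_option autoImplicit false

open Module

namespace Pool.Agent.KTriv

open Pool.Agent.H93Cone Pool.Agent.H92Cone Pool.Agent.H55.Cone

namespace Variety

/-- finitely many twists: the automorphisms commuting with `H` have finite index among those whose
action on `N¹` commutes with the one of `H` -/
theorem relIndex_ne_zero {A : Type} [Group A] {B : Type} [Group B] (ρ : A →* B) (H : Subgroup A)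
    (ht : FiniteTwists ρ H) :
    ((Subgroup.centralizer (H : Set A)).map ρ).relIndex
      (ρ.range ⊓ Subgroup.centralizer ((H.map ρ : Subgroup B) : Set B)) ≠ 0 := by
  classical
  obtain ⟨T, hT, hf⟩ := ht
  set C : Subgroup B := (Subgroup.centralizer (H : Set A)).map ρ with hC
  set Z : Subgroup B := ρ.range ⊓ Subgroup.centralizer ((H.map ρ : Subgroup B) : Set B) with hZ
  -- the twist of an element
  have hlift : ∀ z : Z, ∃ a : A, ρ a = z := fun z => z.2.1
  choose a ha using hlift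
  have htw : ∀ z : Z, ∃ t ∈ T, ∃ k : A, ρ k = 1 ∧
      ∀ h ∈ H, a z * h * (a z)⁻¹ = k * t h * k⁻¹ := by
    intro z
    refine hf (fun h => a z * h * (a z)⁻¹) ⟨fun h _ k _ => by group, fun h hh => ?_⟩
    have hc : (z : B) * ρ h = ρ h * z :=
      (Subgroup.mem_centralizer_iff.1 z.2.2 (ρ h) ⟨h, hh, rfl⟩).symm
    simp only [map_mul, map_inv]
    rw [ha z, hc, mul_assoc, mul_inv_cancel, mul_one]
  choose t ht k hk hk2 using htw
  -- the map `Z → T` separates the cosets
  have key : ∀ z w : Z, t z = t w → (z : B)⁻¹ * w ∈ C := by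
    intro z w hzw
    refine ⟨(a z)⁻¹ * (k z * (k w)⁻¹) * a w, ?_, ?_⟩
    · rw [SetLike.mem_coe, Subgroup.mem_centralizer_iff]
      intro h hh
      have h1 := hk2 z h hh
      have h2 := hk2 w h hh
      rw [← hzw] at h2
      have h3 : t z h = (k z)⁻¹ * (a z * h * (a z)⁻¹) * k z := by
        rw [h1]; group
      rw [h3] at h2
      -- `h2 : a w * h * (a w)⁻¹ = k w * ((k z)⁻¹ * (a z * h * (a z)⁻¹) * k z) * (k w)⁻¹`
      have h4 : a w * h = k w * ((k z)⁻¹ * (a z * h * (a z)⁻¹) * k z) * (k w)⁻¹ * a w := by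
        rw [← h2]; group
      calc h * ((a z)⁻¹ * (k z * (k w)⁻¹) * a w)
          = (a z)⁻¹ * (k z * (k w)⁻¹) *
            (k w * ((k z)⁻¹ * (a z * h * (a z)⁻¹) * k z) * (k w)⁻¹ * a w) := by group
        _ = (a z)⁻¹ * (k z * (k w)⁻¹) * (a w * h) := by rw [← h4]
        _ = (a z)⁻¹ * (k z * (k w)⁻¹) * a w * h := by group
    · simp only [map_mul, map_inv, hk z, hk w, ha z, ha w]
      group
  have : Finite (Z ⧸ C.subgroupOf Z) := by
    have : Finite T := hT
    let F : Z ⧸ C.subgroupOf Z → T := fun q => ⟨t q.out, ht q.out⟩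
    refine Finite.of_injective F ?_
    intro q q' hq
    have h1 : t q.out = t q'.out := congrArg Subtype.val hq
    have h2 := key _ _ h1
    rw [← QuotientGroup.out_eq' q, ← QuotientGroup.out_eq' q']
    rw [QuotientGroup.eq]
    exact h2
  rw [Subgroup.relIndex]
  exact Subgroup.index_ne_zero_of_finite

theorem IsQuotient.coneConjecture {W X : Variety} {H : Subgroup W.Aut} [Finite H]
    {P : Matrix (Fin W.n) (Fin X.n) ℤ} (h : W.IsQuotient H X P) (hW : W.Standard)
    (hX : X.Standard) (hc : ∃ S : Finset (Fin W.n → ℚ), (∀ x ∈ rcone S, x ∈ W.Nef ∧ x ∈ W.Eff) ∧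
      ∀ x, x ∈ W.Nef → x ∈ W.Eff → ∃ g ∈ W.ρ.range, ∃ y ∈ rcone S, act g.val y = x) :
    X.ConeConjecture := by
  classical
  obtain ⟨S, hS1, hS2⟩ := hc
  have : Finite (H.map W.ρ) := by
    have : Finite ((H : Set W.Aut)) := ‹Finite H›
    have h2 : ((W.ρ '' (H : Set W.Aut))).Finite := Set.Finite.image _ (Set.toFinite _)
    exact h2
  obtain ⟨S', h1, h2, h3⟩ := quotient_main W.Nef W.Eff hW.closed hW.ample hW.ample_eff hW.salient
    W.ρ.range (by rintro _ ⟨g, rfl⟩; exact hW.aut_nef g)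
    (by rintro _ ⟨g, rfl⟩; exact hW.aut_eff g) S hS1 hS2 (H.map W.ρ)
    (by rintro _ ⟨g, _, rfl⟩; exact hW.aut_nef g) P h.injective
    (fun x => by
      rw [h.range x]
      constructor
      · intro hx g hg
        exact hx _ ⟨g, hg, rfl⟩
      · rintro hx _ ⟨g, hg, rfl⟩
        exact hx g hg)
    ((Subgroup.centralizer (H : Set W.Aut)).map W.ρ)
    (by
      rintro _ ⟨g, hg, rfl⟩ _ ⟨k, hk, rfl⟩
      have := Subgroup.mem_centralizer_iff.1 hg k hk
      rw [← map_mul, ← map_mul, this])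
    (relIndex_ne_zero W.ρ H h.twists) X.ρ.range
    (by
      rintro _ ⟨g, rfl⟩ z hz
      exact (h.nef _).2 (hX.aut_nef g z ((h.nef z).1 hz)))
    (by
      rintro _ ⟨g, rfl⟩ z hz
      exact (h.eff _).2 (hX.aut_eff g z ((h.eff z).1 hz)))
    (by
      rintro _ ⟨g, hg, rfl⟩
      obtain ⟨g', hg'⟩ := h.aut g (fun k hk => (Subgroup.mem_centralizer_iff.1 hg k hk).symm)
      exact ⟨X.ρ g', ⟨g', rfl⟩, hg'⟩)
  refine ⟨S', ?_, ?_, ?_⟩
  · intro z hz
    have := h1 z hz
    exact ⟨(h.nef z).1 this.1, (h.eff z).1 this.2⟩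
  · apply Set.Subset.antisymm
    · rintro z ⟨hz1, hz2⟩
      obtain ⟨g, hg, y, hy, hyz⟩ := h2 z ((h.nef z).2 hz1) ((h.eff z).2 hz2)
      exact Set.mem_iUnion₂.2 ⟨g, hg, y, hy, hyz⟩
    · intro z hz
      obtain ⟨γ, ⟨g, rfl⟩, y, hy, rfl⟩ := Set.mem_iUnion₂.1 hz
      have := h1 y hy
      exact ⟨hX.aut_nef g y ((h.nef y).1 this.1), hX.aut_eff g y ((h.eff y).1 this.2)⟩
  · intro g hg hg1
    exact (h3 g hg hg1).inter_eq

end Variety

end Pool.Agent.KTriv
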