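import Pool.Agent.KTriv.VarP
import Pool.Agent.KTriv.Prod
import Pool.Agent.KTriv.Quotient

/-!
# KTriv/AdaptVar : from VarP to Defs
-/

set_option autoImplicit false

namespace Pool.Agent.KTriv

open Pool.Agent.H93Cone Pool.Agent.H92Cone Pool.Agent.H55.Cone

variable {n m : ℕ}

theorem lc_eq (s : ℝ) (x : Sp n) (t : ℝ) (y : Sp n) : lc s x t y = s • x + t • y := rfl

/-- the linear map -/
def IsLin.map {f : Sp n → Sp m} (h : IsLin f) : Sp n →ₗ[ℝ] Sp m where
  toFun := f
  map_add' := fun x y => by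
    have := h.1 1 x 1 y
    rwa [lc_eq, lc_eq, one_smul, one_smul, one_smul, one_smul] at this
  map_smul' := fun c x => by
    have := h.1 c x 0 x
    rwa [lc_eq, lc_eq, zero_smul, zero_smul, add_zero, add_zero] at this

theorem IsLin.exists_mat {f : Sp n → Sp m} (h : IsLin f) :
    ∃ M : Matrix (Fin m) (Fin n) ℤ, ∀ x, pull M x = f x := by
  have h1 : ∀ (i : Fin m) (j : Fin n), ∃ k : ℤ, f (Pi.single j 1) i = k := by
    intro i j
    refine h.2 _ (fun k => ?_) i
    by_cases hk : k = j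
    · subst hk
      exact ⟨1, by simp⟩
    · exact ⟨0, by simp [hk]⟩
  choose M hM using h1
  refine ⟨Matrix.of M, fun x => ?_⟩
  have h2 : pull (Matrix.of M) = h.map := by
    apply (Pi.basisFun ℝ (Fin n)).ext
    intro j
    funext i
    rw [Pi.basisFun_apply]
    show ((Matrix.of M).map (Int.cast : ℤ → ℝ)).mulVec (Pi.single j 1) i = f (Pi.single j 1) i
    rw [hM]
    simp
  rw [h2]
  rfl

theorem pull_act (M : Matrix (Fin n) (Fin n) ℤ) (x : Sp n) : pull M x = act M x := rfl

theorem mat_ext {M N : Matrix (Fin n) (Fin n) ℤ} (h : ∀ x, act M x = act N x) : M = N := by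
  ext i j
  have := congrFun (h (Pi.single j 1)) i
  rw [act_single, act_single] at this
  exact_mod_cast this

/-- the convex cone of a predicate -/
def IsCone.cone {C : Sp n → Prop} (h : IsCone C) (h0 : C 0) : PointedCone ℝ (Fin n → ℝ) where
  carrier := {x | C x}
  zero_mem' := h0
  add_mem' := fun {x y} hx hy => by
    have := h 1 x 1 y hx hy zero_le_one zero_le_one
    rwa [lc_eq, one_smul, one_smul] at this
  smul_mem' := fun c x hx => by
    have := h c x 0 x hx hx c.2 le_rfl
    rwa [lc_eq, zero_smul, add_zero] at this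

theorem IsCone.zero {C : Sp n → Prop} (h : IsCone C) {x : Sp n} (hx : C x) : C 0 := by
  have := h 0 x 0 x hx hx le_rfl le_rfl
  rwa [lc_eq, zero_smul, zero_add] at this

namespace Var

variable {V : Var}

theorem Std.nef_mem {x : Sp V.n} (hx : Inn V.Nef x) : V.Nef x := interior_subset hx

theorem Std.nef_zero (h : V.Std) : V.Nef 0 := by
  obtain ⟨x, hx⟩ := h.ample
  exact h.nef.zero (Std.nef_mem hx)

theorem Std.eff_zero (h : V.Std) : V.Eff 0 := by
  obtain ⟨x, hx⟩ := h.ample
  exact h.eff.zero (h.ample_eff x hx)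

/-- the group structure -/
noncomputable def Std.group (h : V.Std) : Group V.Aut :=
  letI : Mul V.Aut := ⟨V.mul⟩
  letI : One V.Aut := ⟨h.inv.choose⟩
  letI : Inv V.Aut := ⟨fun a => (h.inv.choose_spec a).2.choose⟩
  Group.ofLeftAxioms h.assoc (fun a => (h.inv.choose_spec a).1)
    (fun a => (h.inv.choose_spec a).2.choose_spec)

/-- the matrix of an automorphism -/
noncomputable def Std.mat (h : V.Std) (a : V.Aut) : Matrix (Fin V.n) (Fin V.n) ℤ :=
  (h.act_lin a).exists_mat.choose

theorem Std.mat_act (h : V.Std) (a : V.Aut) (x : Sp V.n) :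
    Pool.Agent.H93Cone.act (h.mat a) x = V.act a x :=
  (h.act_lin a).exists_mat.choose_spec x

/-- the homomorphism -/
noncomputable def Std.hom (h : V.Std) : letI := h.group; V.Aut →* GL (Fin V.n) ℤ :=
  letI := h.group
  MonoidHom.toHomUnits
    { toFun := h.mat
      map_one' := by
        apply mat_ext
        intro x
        rw [h.mat_act, act_one]
        apply h.act_inj 1
        rw [← h.act_mul]
        congr 1
        exact mul_one (1 : V.Aut)
      map_mul' := by
        intro a b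
        apply mat_ext
        intro x
        rw [act_mul_apply, h.mat_act, h.mat_act, h.mat_act]
        exact h.act_mul a b x }

theorem Std.hom_act (h : V.Std) (a : V.Aut) (x : Sp V.n) :
    Pool.Agent.H93Cone.act ((letI := h.group; h.hom) a).val x = V.act a x :=
  h.mat_act a x

/-- the variety of `Defs` -/
noncomputable def Std.old (h : V.Std) : Variety where
  n := V.n
  Nef := h.nef.cone h.nef_zero
  Eff := h.eff.cone h.eff_zero
  Aut := V.Aut
  grp := h.group
  ρ := h.hom

theorem Std.old_move (h : V.Std) (a : V.Aut) (x : Sp V.n) : h.old.move a x = V.act a x :=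
  h.mat_act a x

theorem Std.old_standard (h : V.Std) : h.old.Standard where
  closed := h.closed
  salient := by
    have key : ∀ x : Sp V.n, V.Nef x → V.Nef (-x) → x = 0 := by
      intro x hx hx'
      have e : lc (-1) x 0 x = -x := by
        rw [lc_eq, zero_smul, add_zero, neg_one_smul]
      have h1 := h.salient x hx (by rw [e]; exact hx')
      rw [h1, lc_eq, zero_smul, add_zero]
    exact key
  ample := h.ample
  ample_eff := h.ample_eff
  aut_nef := fun g x hx => by
    rw [h.old_move]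
    exact h.act_nef g x hx
  aut_eff := fun g x hx => by
    rw [h.old_move]
    exact h.act_eff g x hx

end Var

/-! ## cones -/

theorem inCone_iff {r : ℕ} (v : Fin r → Sp n) (x : Sp n) :
    InCone v x ↔ x ∈ (PointedCone.hull ℝ (Set.range v) : PointedCone ℝ (Fin n → ℝ)) := by
  have e : (x ∈ (PointedCone.hull ℝ (Set.range v) : PointedCone ℝ (Fin n → ℝ))) ↔
      x ∈ Submodule.span {c : ℝ // 0 ≤ c} (Set.range v) := Iff.rfl
  rw [e, Submodule.mem_span_range_iff_exists_fun]
  constructor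
  · rintro ⟨c, hc, hx⟩
    refine ⟨fun k => ⟨c k, hc k⟩, ?_⟩
    funext j
    rw [Finset.sum_apply, hx j]
    rfl
  · rintro ⟨c, hx⟩
    refine ⟨fun k => (c k : ℝ), fun k => (c k).2, fun j => ?_⟩
    rw [← hx, Finset.sum_apply]
    rfl

theorem exists_int (q : Fin n → ℚ) : ∃ N : ℕ, 0 < N ∧ IsInt ((N : ℝ) • ratVec q) := by
  refine ⟨∏ i, (q i).den, Finset.prod_pos fun i _ => (q i).pos, fun k => ?_⟩
  obtain ⟨c, hc⟩ := Finset.dvd_prod_of_mem (fun i => (q i).den) (Finset.mem_univ k)
  refine ⟨c * (q k).num, ?_⟩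
  show ((∏ i, (q i).den : ℕ) : ℝ) * ((q k : ℚ) : ℝ) = _
  rw [hc]
  have h1 : ((q k : ℚ) : ℝ) = ((q k).num : ℝ) / ((q k).den : ℝ) := by
    conv_lhs => rw [← Rat.num_div_den (q k)]
    push_cast
    rfl
  have h2 : ((q k).den : ℝ) ≠ 0 := by exact_mod_cast (q k).den_nz
  rw [h1]
  push_cast
  field_simp

theorem exists_inCone (S : Finset (Fin n → ℚ)) : ∃ (r : ℕ) (v : Fin r → Sp n),
    (∀ k, IsInt (v k)) ∧ ∀ x, InCone v x ↔ x ∈ ratCone S := by
  classical
  choose N hN0 hN using exists_int (n := n)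
  let e := S.equivFin
  refine ⟨S.card, fun k => (N (e.symm k).1 : ℝ) • ratVec (e.symm k).1, fun k => hN _, fun x => ?_⟩
  rw [inCone_iff]
  have h1 : (PointedCone.hull ℝ (Set.range fun k => (N (e.symm k).1 : ℝ) • ratVec (e.symm k).1) :
      PointedCone ℝ (Fin n → ℝ)) = PointedCone.hull ℝ (ratVec '' (S : Set (Fin n → ℚ))) := by
    apply le_antisymm
    · refine Submodule.span_le.2 ?_
      rintro _ ⟨k, rfl⟩
      have h2 : ratVec (e.symm k).1 ∈
          (PointedCone.hull ℝ (ratVec '' (S : Set (Fin n → ℚ))) : PointedCone ℝ (Fin n → ℝ)) :=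
        Submodule.subset_span ⟨_, (e.symm k).2, rfl⟩
      exact Submodule.smul_mem _ (⟨(N (e.symm k).1 : ℝ), Nat.cast_nonneg _⟩ : {c : ℝ // 0 ≤ c}) h2
    · refine Submodule.span_le.2 ?_
      rintro _ ⟨q, hq, rfl⟩
      have hpos : (0 : ℝ) < N q := by exact_mod_cast hN0 q
      have h2 : (N q : ℝ) • ratVec q ∈ (PointedCone.hull ℝ (Set.range fun k =>
          (N (e.symm k).1 : ℝ) • ratVec (e.symm k).1) : PointedCone ℝ (Fin n → ℝ)) := by
        refine Submodule.subset_span ⟨e ⟨q, hq⟩, ?_⟩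
        simp only [Equiv.symm_apply_apply]
      have h3 := Submodule.smul_mem _
        (⟨(N q : ℝ)⁻¹, (inv_pos.2 hpos).le⟩ : {c : ℝ // 0 ≤ c}) h2
      have h4 : (⟨(N q : ℝ)⁻¹, (inv_pos.2 hpos).le⟩ : {c : ℝ // 0 ≤ c}) • ((N q : ℝ) • ratVec q) =
          ratVec q := by
        show (N q : ℝ)⁻¹ • ((N q : ℝ) • ratVec q) = ratVec q
        rw [smul_smul, inv_mul_cancel₀ hpos.ne', one_smul]
      rw [h4] at h3
      exact h3
  rw [h1]
  rfl

theorem exists_ratCone {r : ℕ} {v : Fin r → Sp n} (hv : ∀ k, IsInt (v k)) :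
    ∃ S : Finset (Fin n → ℚ), ∀ x, InCone v x ↔ x ∈ ratCone S := by
  classical
  choose w hw using hv
  refine ⟨Finset.univ.image fun k : Fin r => fun i => (w k i : ℚ), fun x => ?_⟩
  rw [inCone_iff]
  have h1 : Set.range v = ratVec '' ((Finset.univ.image fun k : Fin r => fun i => (w k i : ℚ) :
      Finset (Fin n → ℚ)) : Set (Fin n → ℚ)) := by
    have h2 : ∀ k, ratVec (fun i => (w k i : ℚ)) = v k := by
      intro k
      funext i
      rw [hw k i]
      simp [ratVec]
    ext y
    simp only [Set.mem_range, Finset.coe_image, Finset.coe_univ, Set.image_univ, Set.mem_image]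
    constructor
    · rintro ⟨k, rfl⟩
      exact ⟨_, ⟨k, rfl⟩, h2 k⟩
    · rintro ⟨_, ⟨k, rfl⟩, rfl⟩
      exact ⟨k, (h2 k).symm⟩
  rw [h1]
  rfl

/-- the homeomorphism -/
noncomputable def actHomeo (γ : GL (Fin n) ℤ) : (Fin n → ℝ) ≃ₜ (Fin n → ℝ) where
  toFun := act γ.val
  invFun := act (γ⁻¹ : GL (Fin n) ℤ).val
  left_inv := act_val_inv γ
  right_inv := act_inv_val γ
  continuous_toFun := act_continuous _
  continuous_invFun := act_continuous _

theorem interior_image (γ : GL (Fin n) ℤ) (A : Set (Fin n → ℝ)) :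
    interior (act γ.val '' A) = act γ.val '' interior A :=
  ((actHomeo γ).image_interior A).symm

namespace Var

variable {V : Var}

theorem Std.hom_eq_one (h : V.Std) (a : V.Aut) : h.old.ρ a = 1 ↔ ∀ x, V.act a x = x := by
  constructor
  · intro h1 x
    have h2 := h.old_move a x
    rw [Variety.move, h1] at h2
    rw [← h2]
    show Pool.Agent.H93Cone.act (1 : GL (Fin V.n) ℤ).val x = x
    rw [Units.val_one, act_one]
    rfl
  · intro h1
    apply Units.ext
    apply mat_ext
    intro x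
    rw [Units.val_one, act_one]
    exact (h.mat_act a x).trans (h1 x)

/-- the inverse -/
theorem Std.exists_inv (h : V.Std) (a : V.Aut) : ∃ b, ∀ x, V.act b (V.act a x) = x ∧
    V.act a (V.act b x) = x := by
  let _ := h.group
  have h1 : ∀ c d : V.Aut, V.mul c d = c * d := fun _ _ => rfl
  have h0 : ∀ x, V.act 1 x = x := by
    intro x
    apply h.act_inj 1
    rw [← h.act_mul, h1, mul_one]
  refine ⟨a⁻¹, fun x => ⟨?_, ?_⟩⟩
  · rw [← h.act_mul, h1, inv_mul_cancel, h0]
  · rw [← h.act_mul, h1, mul_inv_cancel, h0]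

theorem Cone.to (h : V.Std) (hV : V.Cone) : h.old.ConeConjecture := by
  obtain ⟨r, v, hv, hA, hI⟩ := hV
  obtain ⟨S, hS⟩ := exists_ratCone hv
  have hPi : {x | InCone v x} = ratCone S := Set.ext hS
  refine ⟨S, ?_, ?_, ?_⟩
  · intro x hx
    obtain ⟨b, hb⟩ : ∃ g, InCone v (V.act g x) := by
      let _ := h.group
      refine ⟨1, ?_⟩
      have h0 : V.act 1 x = x := by
        apply h.act_inj 1
        rw [← h.act_mul]
        congr 1
        exact mul_one (1 : V.Aut)
      rw [h0]
      exact (hS x).2 hx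
    exact (hA x).2 ⟨b, hb⟩
  · apply Set.Subset.antisymm
    · intro x hx
      obtain ⟨g, hg⟩ := (hA x).1 hx
      obtain ⟨b, hb⟩ := h.exists_inv g
      refine Set.mem_iUnion₂.2 ⟨h.old.ρ b, ⟨b, rfl⟩, V.act g x, (hS _).1 hg, ?_⟩
      exact (h.mat_act b _).trans (hb x).1
    · intro x hx
      obtain ⟨_, ⟨b, rfl⟩, y, hy, rfl⟩ := Set.mem_iUnion₂.1 hx
      obtain ⟨g, hg⟩ := h.exists_inv b
      refine (hA _).2 ⟨g, ?_⟩
      have e : Pool.Agent.H93Cone.act (h.old.ρ b).val y = V.act b y := h.mat_act b y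
      rw [e, (hg y).1]
      exact (hS y).2 hy
  · rintro _ ⟨a, rfl⟩ ha
    have h1 : ∃ x, V.act a x ≠ x := by
      by_contra hne
      push Not at hne
      exact ha ((h.hom_eq_one a).2 hne)
    apply Set.eq_empty_of_forall_notMem
    rintro y ⟨hy1, hy2⟩
    rw [interior_image] at hy2
    obtain ⟨x, hx, hxy⟩ := hy2
    have e : Pool.Agent.H93Cone.act (h.old.ρ a).val x = V.act a x := h.mat_act a x
    refine hI a h1 x ⟨?_, ?_⟩
    · show x ∈ interior {x | InCone v x}
      rw [hPi]
      exact hx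
    · show V.act a x ∈ interior {x | InCone v x}
      rw [hPi, ← e, hxy]
      exact hy1

theorem Cone.of (h : V.Std) (hV : h.old.ConeConjecture) : V.Cone := by
  obtain ⟨S, hS1, hS2, hS3⟩ := hV
  obtain ⟨r, v, hv, hS⟩ := exists_inCone S
  have hPi : {x | InCone v x} = ratCone S := Set.ext hS
  refine ⟨r, v, hv, fun x => ⟨fun hx => ?_, ?_⟩, ?_⟩
  · have h1 : x ∈ translates h.old.ρ.range (ratCone S) := by
      rw [← hS2]
      exact hx
    obtain ⟨_, ⟨b, rfl⟩, y, hy, rfl⟩ := Set.mem_iUnion₂.1 h1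
    obtain ⟨g, hg⟩ := h.exists_inv b
    refine ⟨g, ?_⟩
    have e : Pool.Agent.H93Cone.act (h.old.ρ b).val y = V.act b y := h.mat_act b y
    rw [e, (hg y).1]
    exact (hS y).2 hy
  · rintro ⟨g, hg⟩
    have h1 : V.act g x ∈ h.old.nef ∩ h.old.eff := hS1 ((hS _).1 hg)
    obtain ⟨b, hb⟩ := h.exists_inv g
    have h2 := h.act_nef b _ h1.1
    have h3 := h.act_eff b _ h1.2
    rw [(hb x).1] at h2 h3
    exact ⟨h2, h3⟩
  · rintro a ⟨z, hz⟩ x ⟨hx1, hx2⟩
    have hx1' : x ∈ interior (ratCone S) := by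
      rw [← hPi]
      exact hx1
    have hx2' : V.act a x ∈ interior (ratCone S) := by
      rw [← hPi]
      exact hx2
    have h1 : h.old.ρ a ≠ 1 := fun h2 => hz ((h.hom_eq_one a).1 h2 z)
    have h2 := hS3 (h.old.ρ a) ⟨a, rfl⟩ h1
    have h3 : V.act a x ∈ interior (ratCone S) ∩
        interior (Pool.Agent.H93Cone.act (h.old.ρ a).val '' ratCone S) := by
      refine ⟨hx2', ?_⟩
      rw [interior_image]
      exact ⟨x, hx1', h.mat_act a x⟩
    rw [h2] at h3
    exact h3

/-! ## products and quotients -/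

theorem IsProduct.to {r : ℕ} {W : Var} {Y : Fin r → Var} {E : ∀ j, Sp (Y j).n → Sp W.n}
    (hW : W.Std) (hY : ∀ j, (Y j).Std) (h : W.IsProduct Y E) :
    ∃ M : ∀ j, Matrix (Fin W.n) (Fin (Y j).n) ℤ,
      hW.old.IsProduct (fun j => (hY j).old) M := by
  choose M hM using fun j => (h.lin j).exists_mat
  refine ⟨M, ?_⟩
  have e : ∀ y : ∀ j, Sp (Y j).n,
      Variety.pullAll (W := hW.old) (Y := fun j => (hY j).old) M y = tot E y := by
    intro y
    funext k
    show (∑ j, pull (M j) (y j)) k = ∑ j, E j (y j) k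
    rw [Finset.sum_apply]
    refine Finset.sum_congr rfl fun j _ => ?_
    rw [hM]
  constructor
  · intro w
    obtain ⟨y, hy⟩ := h.sum w
    exact ⟨y, hy.trans (e y).symm⟩
  · intro y
    rw [e]
    exact h.nef y
  · intro y
    rw [e]
    exact h.eff y
  · intro g
    obtain ⟨k, hk⟩ := h.aut g
    refine ⟨k, fun y => ?_⟩
    rw [e]
    refine (hW.mat_act k _).trans ((hk y).trans ?_)
    rw [← e]
    congr 1
    funext j
    exact ((hY j).mat_act (g j) (y j)).symm

theorem IsQuotient.to {W X : Var} {H : W.Aut → Prop} {P : Sp X.n → Sp W.n}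
    (hW : W.Std) (hX : X.Std) (h : W.IsQuotient H X P) :
    ∃ (K : Subgroup hW.old.Aut) (_ : Finite K) (M : Matrix (Fin W.n) (Fin X.n) ℤ),
      hW.old.IsQuotient K hX.old M := by
  classical
  letI := hW.group
  have hm : ∀ c d : W.Aut, W.mul c d = c * d := fun _ _ => rfl
  have hmul : ∀ a b, H a → H b → H (a * b) := h.mul
  have hfin : Finite {a // H a} := h.finite.1
  -- `H` is a subgroup
  have hsurj : ∀ a, H a → ∀ c, H c → ∃ b, H b ∧ a * b = c := by
    intro a ha c hc
    have hi : Function.Injective (fun b : {a // H a} => (⟨a * b.1, hmul a _ ha b.2⟩ : {a // H a})) := by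
      intro x y hxy
      exact Subtype.ext (mul_left_cancel (congrArg Subtype.val hxy))
    obtain ⟨b, hb⟩ := (Finite.injective_iff_surjective.1 hi) ⟨c, hc⟩
    exact ⟨b.1, b.2, congrArg Subtype.val hb⟩
  have hone : H 1 := by
    obtain ⟨a, ha⟩ := h.finite.2
    obtain ⟨b, hb, hab⟩ := hsurj a ha a ha
    have : b = 1 := mul_left_cancel (hab.trans (mul_one a).symm)
    rwa [this] at hb
  have hinv : ∀ a, H a → H a⁻¹ := by
    intro a ha
    obtain ⟨b, hb, hab⟩ := hsurj a ha 1 hone
    rwa [eq_inv_of_mul_eq_one_right hab] at hb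
  let K : Subgroup W.Aut :=
    { carrier := {a | H a}
      mul_mem' := fun {a b} ha hb => hmul a b ha hb
      one_mem' := hone
      inv_mem' := fun {a} ha => hinv a ha }
  obtain ⟨M, hM⟩ := h.lin.exists_mat
  refine ⟨K, hfin, M, ?_⟩
  constructor
  · intro x y hxy
    exact h.inj x y (((hM x).symm.trans hxy).trans (hM y))
  · intro w
    have h1 := h.range w
    constructor
    · rintro ⟨x, hx⟩ k hk
      exact (hW.mat_act k w).trans (h1.1 ⟨x, (hM x).symm.trans hx⟩ k hk)
    · intro hw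
      obtain ⟨x, hx⟩ := h1.2 fun k hk => (hW.mat_act k w).symm.trans (hw k hk)
      exact ⟨x, (hM x).trans hx⟩
  · intro x
    have h1 := (h.nef x).1
    rw [← hM] at h1
    exact h1
  · intro x
    have h1 := (h.nef x).2
    rw [← hM] at h1
    exact h1
  · intro g hg
    obtain ⟨g', hg'⟩ := h.aut g hg
    refine ⟨g', fun x => ?_⟩
    have h1 := hg' x
    rw [← hM, ← hM] at h1
    refine (hW.mat_act g _).trans (h1.trans ?_)
    congr 1
    exact (hX.mat_act g' x).symm
  · obtain ⟨m, t, ht⟩ := h.twists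
    refine ⟨Set.range t, Set.finite_range t, fun f hf => ?_⟩
    have hf2 : ∀ a, H a → ∀ w, W.act (f a) w = W.act a w := by
      intro a ha w
      have h1 : hW.old.ρ (f a) = hW.old.ρ a := hf.2 a ha
      have h2 := hW.old_move (f a) w
      rw [Variety.move, h1] at h2
      rw [← h2]
      exact hW.mat_act a w
    obtain ⟨j, k, hk, hj⟩ := ht f fun a b ha hb => ⟨hf.1 a ha b hb, hf2 a ha⟩
    refine ⟨t j, ⟨j, rfl⟩, k, (hW.hom_eq_one k).2 hk, fun a ha => ?_⟩
    exact @eq_mul_inv_of_mul_eq W.Aut hW.group (f a) (W.mul k (t j a)) k (hj a ha)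

/-- Finite quotients of products. -/
theorem cone_of_quotient {r : ℕ} {Y : Fin r → Var} {W X : Var}
    {E : ∀ j, Sp (Y j).n → Sp W.n} {H : W.Aut → Prop} {P : Sp X.n → Sp W.n}
    (hY : ∀ j, (Y j).Std) (hW : W.Std) (hX : X.Std) (hE : W.IsProduct Y E)
    (hP : W.IsQuotient H X P) (hC : ∀ j, (Y j).Cone) : X.Cone := by
  obtain ⟨M, hM⟩ := hE.to hW hY
  obtain ⟨K, hK, N, hN⟩ := hP.to hW hX
  exact Cone.of hX (hN.coneConjecture hW.old_standard hX.old_standard
    (hM.cover fun j => (hC j).to (hY j)))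

end Var

end Pool.Agent.KTriv
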