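import Pool.Agent.NVC.Pub
import Pool.Agent.H92Cone.Names

/-!
# KTriv/Defs : the cone conjecture for finite quotients of products

Projective varieties with their Neron-Severi lattice, nef cone, effective cone and automorphism
group; products; finite quotients; hyperkähler factors.
-/

set_option autoImplicit false

open Module

namespace Pool.Agent.KTriv

open Pool.Agent.H93Cone Pool.Agent.H92Cone Pool.Agent.H55.Cone Pool.Agent.NV.Pub

/-- A projective variety `V` (or a pair `(V, Δ)`) of Picard number `n`: the nef cone and the
effective cone in `N¹(V)_ℝ = ℝ^n` (the effective cone is spanned by the classes of the effective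
Cartier divisors, it is not closed up), and the automorphism group with its action `ρ` on the
lattice `N¹(V) = ℤ^n` by push-forward. -/
structure Variety where
  n : ℕ
  Nef : PointedCone ℝ (Fin n → ℝ)
  Eff : PointedCone ℝ (Fin n → ℝ)
  Aut : Type
  [grp : Group Aut]
  ρ : Aut →* GL (Fin n) ℤ

attribute [instance] Variety.grp

/-- The restriction of `f` to the subgroup `H` is a homomorphism which differs from the inclusion
by a map from `H` to the kernel of `ρ`. -/
def IsTwist {A B : Type} [Group A] [Group B] (ρ : A →* B) (H : Subgroup A) (f : A → A) : Prop :=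
  (∀ h ∈ H, ∀ k ∈ H, f (h * k) = f h * f k) ∧ ∀ h ∈ H, ρ (f h) = ρ h

/-- Up to conjugation by elements of the kernel `K` of `ρ` there are finitely many twists of the
inclusion of `H`, i.e. `H¹(H, K)` is finite. -/
def FiniteTwists {A B : Type} [Group A] [Group B] (ρ : A →* B) (H : Subgroup A) : Prop :=
  ∃ T : Set (A → A), T.Finite ∧ ∀ f, IsTwist ρ H f →
    ∃ t ∈ T, ∃ k, ρ k = 1 ∧ ∀ h ∈ H, f h = k * t h * k⁻¹

namespace Variety

variable (V : Variety)

/-- The set of nef classes. -/
def nef : Set (Fin V.n → ℝ) := V.Nef

/-- The set of effective classes. -/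
def eff : Set (Fin V.n → ℝ) := V.Eff

/-- The action of the automorphism `g` on the class `x`. -/
noncomputable def move (g : V.Aut) (x : Fin V.n → ℝ) : Fin V.n → ℝ := act (V.ρ g).val x

/-- The cone conjecture for `V`: the action of the automorphism group on `Nef(V) ∩ Eff(V)` has a
rational polyhedral fundamental domain. -/
def ConeConjecture : Prop := HasDomain V.ρ.range (V.nef ∩ V.eff)

/-- What holds for every projective variety `V`: the nef cone is closed and contains no line, the
ample cone, its interior, is not empty, ample classes are effective (up to multiples), and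
automorphisms preserve the nef and the effective cone. -/
structure Standard : Prop where
  closed : IsClosed V.nef
  salient : ∀ x ∈ V.nef, -x ∈ V.nef → x = 0
  ample : (interior V.nef).Nonempty
  ample_eff : interior V.nef ⊆ V.eff
  aut_nef : ∀ g, ∀ x ∈ V.nef, V.move g x ∈ V.nef
  aut_eff : ∀ g, ∀ x ∈ V.eff, V.move g x ∈ V.eff

/-- The sum of the pull-backs of the classes `y_j` under the projections `W → Y_j`, where the matrix
`E j` is the pull-back of line bundles. -/
noncomputable def pullAll {r : ℕ} {W : Variety} {Y : Fin r → Variety}
    (E : ∀ j, Matrix (Fin W.n) (Fin (Y j).n) ℤ) (y : ∀ j, Fin (Y j).n → ℝ) : Fin W.n → ℝ :=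
  ∑ j, pull (E j) (y j)

/-- `W = Y_1 × ... × Y_r`, where at most one of the factors has `H¹(Y_j, 𝒪) ≠ 0`. The matrix `E j`
is the pull-back of line bundles along the projection `W → Y_j`. -/
structure IsProduct {r : ℕ} (W : Variety) (Y : Fin r → Variety)
    (E : ∀ j, Matrix (Fin W.n) (Fin (Y j).n) ℤ) : Prop where
  /-- every class on `W` is a sum of pull-backs from the factors -/
  sum : ∀ w, ∃ y, w = pullAll E y
  /-- a sum of pull-backs is nef if and only if the summands are nef (restrict to the factors) -/
  nef : ∀ y, pullAll E y ∈ W.nef ↔ ∀ j, y j ∈ (Y j).nef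
  /-- a sum of pull-backs is effective if and only if the summands are effective (Künneth) -/
  eff : ∀ y, pullAll E y ∈ W.eff ↔ ∀ j, y j ∈ (Y j).eff
  /-- `Aut(Y_1) × ... × Aut(Y_r)` acts on `W` -/
  aut : ∀ g : ∀ j, (Y j).Aut, ∃ h, ∀ y,
    W.move h (pullAll E y) = pullAll E (fun j => (Y j).move (g j) (y j))

/-- `X = W / H` for the finite group `H` of automorphisms of `W`. The matrix `P` is the pull-back of
line bundles along `W → X`, which identifies `N¹(X)_ℝ` with the invariant subspace of `N¹(W)_ℝ`. -/
structure IsQuotient (W : Variety) (H : Subgroup W.Aut) (X : Variety)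
    (P : Matrix (Fin W.n) (Fin X.n) ℤ) : Prop where
  injective : Function.Injective (pull P)
  range : ∀ w, (∃ x, pull P x = w) ↔ ∀ h ∈ H, W.move h w = w
  /-- a class on `X` is nef (effective) if and only if its pull-back is nef (effective: take the
  norm of a section) -/
  nef : ∀ x, pull P x ∈ W.nef ↔ x ∈ X.nef
  eff : ∀ x, pull P x ∈ W.eff ↔ x ∈ X.eff
  /-- automorphisms of `W` commuting with `H` descend to `X` -/
  aut : ∀ g, (∀ h ∈ H, g * h = h * g) → ∃ g', ∀ x, W.move g (pull P x) = pull P (X.move g' x)
  /-- the automorphisms of `W` which act trivially on `N¹(W)` form an algebraic group `K`, so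
  `H¹(H, K)` is finite -/
  twists : FiniteTwists W.ρ H

/-- There is a birational contraction `X_i → Y`, where `X_i` is a projective member of the
deformation class `C` of compact hyperkähler manifolds (for instance `Y = X_i`); `f` is a basis of
the pull-back of the lattice `N¹(Y)`. -/
structure IsContractionOf (Y : Variety) {n b : ℕ} (C : Family n b) (i : C.I) (a : Vec b)
    (f : Fin Y.n → Vec b) : Prop where
  proj : C.Projective i
  contraction : C.IsContraction i a f
  nef : ∀ x, x ∈ Y.nef ↔ C.Nef i (comb f x)
  eff : ∀ x, x ∈ Y.eff ↔ comb f x ∈ C.effCone i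
  aut : C.IsAutomorphismGroup i f Y.ρ.range

/-- `Y` is a projective hyperkähler manifold with second Betti number `b ≥ 5` (a K3 surface, or
`dim Y = 2n ≥ 4` and `Y` of any deformation type), or more generally a variety with a crepant
resolution `X_i → Y` by such a manifold. -/
def IsHyperkahler (Y : Variety) : Prop :=
  ∃ (n b : ℕ) (C : Family n b), C.Axioms ∧ C.ConeAxioms ∧ 5 ≤ b ∧
    ∃ i a f, Y.IsContractionOf C i a f

end Variety

end Pool.Agent.KTriv
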