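import Pool.Agent.KTriv.Main

/-!
# KTriv/Example : the trivial product and the trivial quotient
-/

set_option autoImplicit false

namespace Pool.Agent.KTriv

open Pool.Agent.H93Cone Pool.Agent.H92Cone Pool.Agent.H55.Cone Pool.Agent.NV.Pub

namespace Variety

theorem pull_one {n : ℕ} (x : Fin n → ℝ) : pull (1 : Matrix (Fin n) (Fin n) ℤ) x = x := by
  have h : (1 : Matrix (Fin n) (Fin n) ℤ).map (Int.cast : ℤ → ℝ) = 1 :=
    Matrix.map_one _ Int.cast_zero Int.cast_one
  simp [pull, h]

/-- every variety is the product of the family which consists of it alone -/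
theorem isProduct_single (V : Variety) : V.IsProduct (fun _ : Fin 1 => V) (fun _ => 1) where
  sum w := ⟨fun _ => w, by simp [pullAll, pull_one]⟩
  nef y := by
    rw [Fin.forall_fin_one]
    simp [pullAll, pull_one]
  eff y := by
    rw [Fin.forall_fin_one]
    simp [pullAll, pull_one]
  aut g := ⟨g 0, fun y => by simp [pullAll, pull_one]⟩

/-- every variety is its quotient by the trivial group -/
theorem isQuotient_bot (V : Variety) : V.IsQuotient ⊥ V 1 where
  injective := fun x y h => by simpa [pull_one] using h
  range w := by
    constructor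
    · intro _ h hh
      rw [Subgroup.mem_bot.1 hh]
      simp [move]
    · intro _
      exact ⟨w, pull_one w⟩
  nef x := by rw [pull_one]
  eff x := by rw [pull_one]
  aut g _ := ⟨g, fun x => by rw [pull_one, pull_one]⟩
  twists := by
    refine ⟨{1}, Set.finite_singleton _, fun f hf => ⟨1, rfl, 1, map_one _, fun h hh => ?_⟩⟩
    rw [Subgroup.mem_bot.1 hh]
    have h1 := hf.1 1 (Subgroup.one_mem _) 1 (Subgroup.one_mem _)
    rw [mul_one] at h1
    have h2 : f 1 = 1 := by
      have := congrArg (fun x => x * (f 1)⁻¹) h1
      simpa using this.symm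
    rw [h2]
    simp

end Variety

end Pool.Agent.KTriv
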