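import Pool.Agent.KTriv.Prod
import Pool.Agent.KTriv.Quotient
import Pool.Agent.NVC.Adapter

/-!
# KTriv/Main : the cone conjecture for finite quotients of products
-/

set_option autoImplicit false

namespace Pool.Agent.KTriv

open Pool.Agent.H93Cone Pool.Agent.H92Cone Pool.Agent.H55.Cone Pool.Agent.NV.Pub

namespace Variety

theorem IsHyperkahler.coneConjecture {Y : Variety} (hY : Y.IsHyperkahler) : Y.ConeConjecture := by
  obtain ⟨n, b, C, hC, hW, hb, i, a, f, hi, hf, hnef, heff, hG⟩ := hY
  have h := Family.cone_conjecture hC hW hb hi hf hG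
  have e : Y.nef ∩ Y.eff = C.nefEff i f := by
    ext x
    exact and_congr (hnef x) (heff x)
  rw [ConeConjecture, e]
  exact h

/-- Finite quotients of products of varieties which satisfy the cone conjecture. -/
theorem coneConjecture_of_quotient {r : ℕ} {Y : Fin r → Variety} {W X : Variety}
    {E : ∀ j, Matrix (Fin W.n) (Fin (Y j).n) ℤ} {P : Matrix (Fin W.n) (Fin X.n) ℤ}
    {H : Subgroup W.Aut} [Finite H] (hW : W.Standard) (hX : X.Standard) (hE : W.IsProduct Y E)
    (hP : W.IsQuotient H X P) (hY : ∀ j, (Y j).IsHyperkahler ∨ (Y j).ConeConjecture) :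
    X.ConeConjecture :=
  hP.coneConjecture hW hX (hE.cover fun j => (hY j).elim IsHyperkahler.coneConjecture id)

end Variety

end Pool.Agent.KTriv
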