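import Pool.Agent.KTriv.Defs

/-!
# KTriv/RankOne : the cone conjecture for Picard number one
-/

set_option autoImplicit false

namespace Pool.Agent.KTriv

open Pool.Agent.H93Cone Pool.Agent.H92Cone Pool.Agent.H55.Cone

namespace Variety

/-- The cone conjecture holds for varieties of Picard number one. -/
theorem coneConjecture_of_rank_one {V : Variety} (h : V.Standard) (h1 : V.n = 1) :
    V.ConeConjecture := by
  classical
  have hall : ∀ i j : Fin V.n, i = j := by
    intro i j
    apply Fin.ext
    have := i.2
    have := j.2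
    omega
  let o : Fin V.n := ⟨0, by omega⟩
  obtain ⟨a, ha⟩ := h.ample
  have haN : a ∈ V.nef := interior_subset ha
  have hsmul : ∀ (t : ℝ) x, 0 ≤ t → x ∈ V.nef → t • x ∈ V.nef := fun t x ht hx =>
    Submodule.smul_mem V.Nef (⟨t, ht⟩ : {c : ℝ // 0 ≤ c}) hx
  -- the coordinate of `a` is not zero
  have ha0 : a o ≠ 0 := by
    intro h0
    have haz : a = 0 := funext fun i => by rw [hall i o, h0]; rfl
    rw [haz] at ha
    have hn : (0 : Fin V.n → ℝ) ∈ interior V.nef := ha
    rw [mem_interior_iff_mem_nhds, Metric.mem_nhds_iff] at hn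
    obtain ⟨ε, hε, hb⟩ := hn
    have key : ∀ s : ℝ, |s| < ε → (fun _ => s : Fin V.n → ℝ) ∈ V.nef := by
      intro s hs
      apply hb
      rw [Metric.mem_ball, dist_zero_right, pi_norm_lt_iff hε]
      intro i
      rwa [Real.norm_eq_abs]
    have e1 := key (ε / 2) (by rw [abs_of_pos (by linarith)]; linarith)
    have e2 := key (-(ε / 2)) (by rw [abs_neg, abs_of_pos (by linarith)]; linarith)
    have e3 := h.salient _ e1 (by
      have : -(fun _ => ε / 2 : Fin V.n → ℝ) = fun _ => -(ε / 2) := rfl
      rw [this]; exact e2)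
    have e4 := congrFun e3 o
    simp only [Pi.zero_apply] at e4
    linarith
  have hmul : ∀ x : Fin V.n → ℝ, x = (x o / a o) • a := by
    intro x
    funext i
    rw [Pi.smul_apply, smul_eq_mul, hall i o]
    field_simp
  have hnef : ∀ x, x ∈ V.nef ↔ 0 ≤ x o / a o := by
    intro x
    constructor
    · intro hx
      by_contra hneg
      push Not at hneg
      have e1 : -x ∈ V.nef := by
        rw [hmul (-x)]
        refine hsmul _ _ ?_ haN
        rw [Pi.neg_apply, neg_div]
        linarith
      have e2 := h.salient x hx e1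
      rw [e2] at hneg
      simp at hneg
    · intro hx
      rw [hmul x]
      exact hsmul _ _ hx haN
  obtain ⟨s, hs1, hs2⟩ : ∃ s : ℚ, 0 < (s : ℝ) / a o ∧ s ≠ 0 := by
    rcases lt_or_gt_of_ne ha0 with hlt | hgt
    · exact ⟨-1, by push_cast; exact div_pos_of_neg_of_neg (by norm_num) hlt, by norm_num⟩
    · exact ⟨1, by push_cast; exact div_pos (by norm_num) hgt, by norm_num⟩
  set v : Fin V.n → ℚ := fun _ => s with hv
  have hvn : ratVec v ∈ V.nef := (hnef _).2 hs1.le
  have hs0 : (s : ℝ) ≠ 0 := by exact_mod_cast hs2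
  have hcone : ratCone {v} = V.nef := by
    apply Set.Subset.antisymm
    · intro x hx
      have : PointedCone.hull ℝ (ratVec '' (({v} : Finset (Fin V.n → ℚ)) : Set (Fin V.n → ℚ))) ≤
          V.Nef := by
        refine Submodule.span_le.2 ?_
        rintro _ ⟨w, hw, rfl⟩
        rw [Finset.coe_singleton, Set.mem_singleton_iff] at hw
        rw [hw]
        exact hvn
      exact this hx
    · intro x hx
      have hx1 := (hnef x).1 hx
      have e : x = (x o / s) • ratVec v := by
        funext i
        rw [Pi.smul_apply, smul_eq_mul, hall i o]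
        show x o = x o / s * (s : ℝ)
        field_simp
      have hpos : 0 ≤ x o / s := by
        have : x o / s = (x o / a o) / ((s : ℝ) / a o) := by field_simp
        rw [this]
        exact div_nonneg hx1 hs1.le
      rw [e]
      refine Submodule.smul_mem (PointedCone.hull ℝ _) (⟨x o / s, hpos⟩ : {c : ℝ // 0 ≤ c}) ?_
      exact Submodule.subset_span ⟨v, by simp, rfl⟩
  have heff : V.nef ∩ V.eff = V.nef := by
    apply Set.inter_eq_left.2
    intro x hx
    rcases ((hnef x).1 hx).eq_or_lt with h0 | hpos
    · have : x = 0 := by rw [hmul x, ← h0, zero_smul]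
      rw [this]
      exact V.Eff.zero_mem
    · have e1 : a ∈ V.eff := h.ample_eff ha
      rw [hmul x]
      exact Submodule.smul_mem V.Eff (⟨_, hpos.le⟩ : {c : ℝ // 0 ≤ c}) e1
  refine ⟨{v}, ?_, ?_, ?_⟩
  · rw [heff, hcone]
  · rw [heff, hcone]
    apply Set.Subset.antisymm
    · intro x hx
      refine Set.mem_iUnion₂.2 ⟨1, Subgroup.one_mem _, x, hx, ?_⟩
      simp
    · intro x hx
      obtain ⟨_, ⟨g, rfl⟩, y, hy, rfl⟩ := Set.mem_iUnion₂.1 hx
      exact h.aut_nef g y hy
  · rintro _ ⟨g, rfl⟩ hg
    exfalso
    apply hg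
    -- the coefficient of the matrix is a unit
    have hact : act (V.ρ g).val a ∈ V.nef := h.aut_nef g a haN
    have hval : act (V.ρ g).val a o = ((V.ρ g).val o o : ℝ) * a o := by
      rw [act_apply]
      simp only [Matrix.mulVec, dotProduct, Matrix.map_apply]
      rw [Finset.sum_eq_single o]
      · intro j _ hj
        exact absurd (hall j o) hj
      · intro ho
        exact absurd (Finset.mem_univ o) ho
    have hnn : 0 ≤ ((V.ρ g).val o o : ℝ) := by
      have := (hnef _).1 hact
      rwa [hval, mul_div_assoc, div_self ha0, mul_one] at this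
    have hnn' : 0 ≤ (V.ρ g).val o o := by exact_mod_cast hnn
    have hunit : IsUnit ((V.ρ g).val o o) := by
      have h2 : (V.ρ g).val * (V.ρ g)⁻¹.val = 1 := by
        rw [← Units.val_mul, mul_inv_cancel, Units.val_one]
      have h3 := congrFun (congrFun h2 o) o
      rw [Matrix.mul_apply, Finset.sum_eq_single o, Matrix.one_apply_eq] at h3
      · exact IsUnit.of_mul_eq_one _ h3
      · intro j _ hj
        exact absurd (hall j o) hj
      · intro ho
        exact absurd (Finset.mem_univ o) ho
    have hone : (V.ρ g).val o o = 1 := by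
      rcases Int.isUnit_iff.1 hunit with h4 | h4
      · exact h4
      · rw [h4] at hnn'
        omega
    apply Units.ext
    funext i j
    rw [hall i o, hall j o, hone, Units.val_one, Matrix.one_apply_eq]

end Variety

end Pool.Agent.KTriv
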