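import Mathlib

/-!
# KTriv/VarP : projective varieties, products, finite quotients, the cone conjecture
-/

set_option autoImplicit false

namespace Pool.Agent.KTriv

/-- `ℝ^n` -/
abbrev Sp (n : ℕ) : Type := Fin n → ℝ

/-- `v ∈ ℤ^n` -/
abbrev IsInt {n : ℕ} (v : Sp n) : Prop := ∀ k, ∃ m : ℤ, v k = m

/-- `s x + t y` -/
abbrev lc {n : ℕ} (s : ℝ) (x : Sp n) (t : ℝ) (y : Sp n) : Sp n := fun k => s * x k + t * y k

/-- `f` is linear and maps `ℤ^n` to `ℤ^m` -/
abbrev IsLin {n m : ℕ} (f : Sp n → Sp m) : Prop :=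
  (∀ s x t y, f (lc s x t y) = lc s (f x) t (f y)) ∧ ∀ x, IsInt x → IsInt (f x)

/-- `C` is a convex cone in `ℝ^n` -/
abbrev IsCone {n : ℕ} (C : Sp n → Prop) : Prop :=
  ∀ s x t y, C x → C y → 0 ≤ s → 0 ≤ t → C (lc s x t y)

/-- `x` is in the interior of `C` -/
abbrev Inn {n : ℕ} (C : Sp n → Prop) (x : Sp n) : Prop := x ∈ interior {y | C y}

/-- `x` is in the convex cone spanned by the vectors `v k` -/
abbrev InCone {n r : ℕ} (v : Fin r → Sp n) (x : Sp n) : Prop :=
  ∃ c : Fin r → ℝ, (∀ k, 0 ≤ c k) ∧ ∀ j, x j = ∑ k, c k * v k j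

/-- A projective variety `V` (or a pair `(V, Δ)`) of Picard number `n`: the nef cone and the
effective cone in `N¹(V)_ℝ = ℝ^n` (the effective cone is spanned by the classes of the effective
Cartier divisors, it is not closed up), the automorphism group and its action on
`N¹(V)_ℝ` by push-forward. -/
structure Var where
  n : ℕ
  Nef : Sp n → Prop
  Eff : Sp n → Prop
  Aut : Type
  mul : Aut → Aut → Aut
  act : Aut → Sp n → Sp n

namespace Var

variable (V : Var)

/-- What holds for every projective variety `V`: the nef cone is closed and contains no line, the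
ample cone, its interior, is not empty, ample classes are effective (up to multiples);
automorphisms form a group, which acts linearly on the lattice `N¹(V) = ℤ^n` and preserves the nef
and the effective cone. -/
structure Std : Prop where
  nef : IsCone V.Nef
  eff : IsCone V.Eff
  closed : IsClosed {x | V.Nef x}
  salient : ∀ x, V.Nef x → V.Nef (lc (-1) x 0 x) → x = lc 0 x 0 x
  ample : ∃ x, Inn V.Nef x
  ample_eff : ∀ x, Inn V.Nef x → V.Eff x
  assoc : ∀ a b c, V.mul (V.mul a b) c = V.mul a (V.mul b c)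
  inv : ∃ e, ∀ a, V.mul e a = a ∧ ∃ b, V.mul b a = e
  act_mul : ∀ a b x, V.act (V.mul a b) x = V.act a (V.act b x)
  act_inj : ∀ a x y, V.act a x = V.act a y → x = y
  act_lin : ∀ a, IsLin (V.act a)
  act_nef : ∀ a x, V.Nef x → V.Nef (V.act a x)
  act_eff : ∀ a x, V.Eff x → V.Eff (V.act a x)

/-- The cone conjecture for `V`: the action of the image of `Aut(V)` in `GL(N¹(V))` on
`Nef(V) ∩ Eff(V)` has a rational polyhedral fundamental domain, the cone `Π` spanned by the integral
vectors `v k`. -/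
def Cone : Prop :=
  ∃ (r : ℕ) (v : Fin r → Sp V.n), (∀ k, IsInt (v k)) ∧
    (∀ x, V.Nef x ∧ V.Eff x ↔ ∃ g, InCone v (V.act g x)) ∧
    ∀ g, (∃ x, V.act g x ≠ x) → ∀ x, ¬ (Inn (InCone v) x ∧ Inn (InCone v) (V.act g x))

/-- `∑_j E_j(y_j)` -/
abbrev tot {n r : ℕ} {Y : Fin r → Var} (E : ∀ j, Sp (Y j).n → Sp n) (y : ∀ j, Sp (Y j).n) :
    Sp n := fun k => ∑ j, E j (y j) k

/-- `W = Y_1 × ... × Y_r`, where at most one of the factors has `H¹(Y_j, 𝒪) ≠ 0`, and `E j` is the
pull-back along the projection `W → Y_j`. Every class on `W` is a sum of pull-backs from the factors;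
it is nef (effective) if and only if the summands are (restrict to the factors; Künneth);
`Aut(Y_1) × ... × Aut(Y_r)` acts on `W`. -/
structure IsProduct {r : ℕ} (Y : Fin r → Var) (E : ∀ j, Sp (Y j).n → Sp V.n) : Prop where
  lin : ∀ j, IsLin (E j)
  sum : ∀ w, ∃ y, w = tot E y
  nef : ∀ y, V.Nef (tot E y) ↔ ∀ j, (Y j).Nef (y j)
  eff : ∀ y, V.Eff (tot E y) ↔ ∀ j, (Y j).Eff (y j)
  aut : ∀ g : ∀ j, (Y j).Aut, ∃ h, ∀ y,
    V.act h (tot E y) = tot E fun j => (Y j).act (g j) (y j)

/-- `X = W / H` for the finite group `H` of automorphisms of `W`, and `P` is the pull-back along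
`W → X`, which identifies `N¹(X)_ℝ` with the invariant subspace of `N¹(W)_ℝ`.
* `nef`: a class on `X` is nef (effective) if and only if its pull-back is nef (effective: take the
  norm of a section).
* `aut`: automorphisms of `W` commuting with `H` descend to `X`.
* `twists`: the automorphisms of `W` which act trivially on `N¹(W)` form an algebraic group `K`, so
  `H¹(H, K)` is finite: up to conjugation by elements of `K` there are finitely many homomorphisms
  from `H` to `Aut(W)` with the same action on `N¹(W)` as the inclusion. -/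
structure IsQuotient (H : V.Aut → Prop) (X : Var) (P : Sp X.n → Sp V.n) : Prop where
  finite : {h | H h}.Finite ∧ ∃ h, H h
  mul : ∀ a b, H a → H b → H (V.mul a b)
  lin : IsLin P
  inj : ∀ x y, P x = P y → x = y
  range : ∀ w, (∃ x, P x = w) ↔ ∀ h, H h → V.act h w = w
  nef : ∀ x, (V.Nef (P x) ↔ X.Nef x) ∧ (V.Eff (P x) ↔ X.Eff x)
  aut : ∀ g, (∀ h, H h → V.mul g h = V.mul h g) → ∃ g', ∀ x, V.act g (P x) = P (X.act g' x)
  twists : ∃ (m : ℕ) (t : Fin m → V.Aut → V.Aut), ∀ f : V.Aut → V.Aut,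
    (∀ a b, H a → H b → f (V.mul a b) = V.mul (f a) (f b) ∧ ∀ w, V.act (f a) w = V.act a w) →
      ∃ j k, (∀ w, V.act k w = w) ∧ ∀ h, H h → V.mul (f h) k = V.mul k (t j h)

end Var

end Pool.Agent.KTriv
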